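import Pool.Agent.J6H56.NB.Real
import Pool.Agent.J6H56.NB.NotAtt
import Pool.Agent.R270.NB.G

/-!
# The infimum of the basis constants of the nonnegative bases of `L_1(ℝ)` is one (MP_c30670_an, Q2)

The infimum of the basis constants of all Schauder bases of `L_1(ℝ)` which consist of nonnegative functions is `1`, and
it is not attained.

Construction. At each stage there are finitely many disjoint intervals. An interval `I` of the current stage is divided
into three intervals `W`, `U`, `V` with `|W| = p |I|`, `|U| = q |I|`, `p + q = ρ`, `c q - p = ρ`, where `ρ` and `c - 1 > 0`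
are small. The next two basis vectors are `1_W / |W| + 1_I / |I|` and `1_U / |U| + c 1_W / |W|`. So the partial sum
projection onto the span of the previous vectors maps `1_W / |W|`, `1_U / |U|`, `1_V / |V|` to `-1_I / |I|`,
`c 1_I / |I|`, `1_I / |I|`. It is a contraction for weighted norms whose weights increase from stage to stage by the
factors `c`, the product of which is close to one. There is no monotone nonnegative basis: if `f 0` is the first vector
and `A` its support, contractive projections fixing `f 0` preserve integrals of functions on `A`, and the first basis vector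
which is not a multiple of `f 0` on `A` leads to a contradiction.
-/

set_option autoImplicit false

namespace Pool.Agent.Results.MP_c30670_an.InfimumOne
open Finset MeasureTheory Filter Topology

/-- the Banach lattice `L_1(ℝ)` -/
abbrev L1R : Type := Lp ℝ 1 (volume : Measure ℝ)

/-- the partial sum of the first `N` terms of `∑ a n • f n` -/
noncomputable def psum (f : ℕ → L1R) (a : ℕ → ℝ) (N : ℕ) : L1R := ∑ n ∈ range N, a n • f n

/-- `x` is the sum of the series `∑ a n • f n` (the limit of its partial sums) -/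
def Expands (f : ℕ → L1R) (a : ℕ → ℝ) (x : L1R) : Prop := Tendsto (psum f a) atTop (𝓝 x)

/-- `f` is a Schauder basis of `L_1(ℝ)` which consists of nonnegative functions. -/
def IsNonnegBasis (f : ℕ → L1R) : Prop := (∀ n, 0 ≤ f n) ∧ ∀ x : L1R, ∃! a : ℕ → ℝ, Expands f a x

/-- `C` bounds the partial sums of all expansions. -/
def Bounds (f : ℕ → L1R) (C : ℝ) : Prop := ∀ x a, Expands f a x → ∀ N, ‖psum f a N‖ ≤ C * ‖x‖

/-- `K` is the basis constant of `f`: the least `C` such that all partial sums of the expansion of each `x` have norm at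
most `C ‖x‖`. -/
def IsBasisConstant (f : ℕ → L1R) (K : ℝ) : Prop := IsLeast {C | Bounds f C} K

/-- The infimum of the basis constants of the nonnegative Schauder bases of `L_1(ℝ)` is `1`, and it is not attained. -/
theorem result :
    IsGLB {K : ℝ | ∃ f, IsNonnegBasis f ∧ IsBasisConstant f K} 1 ∧
      ∀ f K, IsNonnegBasis f → IsBasisConstant f K → 1 < K := by
  have hlow : ∀ f K, IsNonnegBasis f → Bounds f K → 1 ≤ K := by
    intro f K hf hK
    have hne := Pool.Agent.J6H56.NB.NA.ne_zero f hf.2 0
    have h1 := Pool.Agent.J6H56.NB.NA.cf_spec f hf.2 (f 0)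
    rw [Pool.Agent.J6H56.NB.NA.cf_self f hf.2 0] at h1
    have h2 : ‖psum f (fun n => if n = 0 then (1 : ℝ) else 0) 1‖ ≤ K * ‖f 0‖ := hK (f 0) _ h1 1
    have h4 : psum f (fun n => if n = 0 then (1 : ℝ) else 0) 1 = f 0 :=
      Pool.Agent.J6H56.NB.NA.sum_single f 0 1 (by omega)
    rw [h4] at h2
    have h3 : 0 < ‖f 0‖ := norm_pos_iff.2 hne
    by_contra hc
    push Not at hc
    nlinarith
  have hstrict : ∀ f K, IsNonnegBasis f → IsBasisConstant f K → 1 < K := by
    intro f K hf hK
    refine lt_of_le_of_ne (hlow f K hf hK.1) ?_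
    rintro rfl
    refine Pool.Agent.J6H56.NB.NA.not_one f hf.2 (fun x a h N => ?_) hf.1
    have := hK.1 x a h N
    rwa [one_mul] at this
  refine ⟨⟨?_, ?_⟩, hstrict⟩
  · rintro K ⟨f, hf, hK⟩
    exact (hstrict f K hf hK).le
  · intro b hb
    refine le_of_forall_pos_le_add fun ε hε => ?_
    -- parameters
    set ρ : ℝ := min ε 1 / 8 with hρdef
    have hρ : 0 < ρ := by positivity
    have hρε : 8 * ρ ≤ ε := by rw [hρdef]; linarith [min_le_left ε 1]
    have hρ8 : ρ ≤ 1 / 8 := by rw [hρdef]; linarith [min_le_right ε 1]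
    have hH := Pool.Agent.J6H56.NB.ee_sys (δ := ρ) (ρ := ρ) hρ hρ (by linarith)
    set f := Pool.Agent.J6H56.NB.gg ρ (Pool.Agent.J6H56.NB.ee ρ ρ) with hfdef
    have hconst : (1 + ρ) / (1 - ρ) * (1 + ρ) ≤ 1 + ε := by
      rw [div_mul_eq_mul_div, div_le_iff₀ (by linarith)]
      nlinarith
    have hbd : ∀ (a : ℕ → ℝ) (m N : ℕ), m ≤ N →
        ‖∑ n ∈ range m, a n • f n‖ ≤ (1 + ε) * ‖∑ n ∈ range N, a n • f n‖ := by
      intro a m N h
      refine (Pool.Agent.J6H56.NB.bound a hH hρ hρ (by linarith) m N h).trans ?_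
      exact mul_le_mul_of_nonneg_right hconst (norm_nonneg _)
    have hne : ∀ n, f n ≠ 0 := by
      intro n hn
      have h1 := Pool.Agent.J6H56.NB.ee_nonneg (δ := ρ) (ρ := ρ) hρ hρ (by linarith)
      have h2 : ∀ k, Pool.Agent.J6H56.NB.ee ρ ρ k ≠ 0 := by
        intro k hk
        have := hH.one k
        rw [hk, norm_zero] at this
        norm_num at this
      obtain ⟨t, i, rfl, hi⟩ : ∃ t i, n = 3 * t + i ∧ i < 3 := ⟨n / 3, n % 3, by omega, by omega⟩
      interval_cases i
      · rw [add_zero, hfdef, Pool.Agent.J6H56.NB.gg0] at hn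
        exact h2 _ hn
      · rw [hfdef, Pool.Agent.J6H56.NB.gg1] at hn
        exact h2 _ ((add_eq_zero_iff_of_nonneg (h1 _) (h1 _)).1 hn).1
      · rw [hfdef, Pool.Agent.J6H56.NB.gg2] at hn
        have h3 := h1 (4 * t + 1)
        have h4 : 0 ≤ Pool.Agent.J6H56.NB.cc ρ t • Pool.Agent.J6H56.NB.ee ρ ρ (4 * t + 1) := by
          rw [← Lp.coeFn_nonneg] at h3 ⊢
          filter_upwards [h3, Lp.coeFn_smul (Pool.Agent.J6H56.NB.cc ρ t)
            (Pool.Agent.J6H56.NB.ee ρ ρ (4 * t + 1))] with x a1 a2
          rw [a2, Pi.smul_apply, smul_eq_mul]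
          exact mul_nonneg (by linarith [Pool.Agent.J6H56.NB.cc_gt hρ t]) a1
        exact h2 _ ((add_eq_zero_iff_of_nonneg (h1 _) h4).1 hn).1
    have hG := Pool.Agent.R270.NB.stmG (Lp ℝ 1 (volume : Measure ℝ)) f (1 + ε) (by linarith) hne hbd
    have htop : (Submodule.span ℝ (Set.range f)).topologicalClosure = ⊤ :=
      Pool.Agent.J6H56.NB.dense hρ hρ (by linarith)
    have hbasis : IsNonnegBasis f :=
      ⟨Pool.Agent.J6H56.NB.gg_nonneg hρ hρ (by linarith), fun x => hG.1 x (by rw [htop]; trivial)⟩
    have hmem : Bounds f (1 + ε) := fun x a h N => hG.2 x (by rw [htop]; trivial) a h N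
    set S : Set ℝ := {C : ℝ | Bounds f C} with hS
    have hSne : S.Nonempty := ⟨1 + ε, hmem⟩
    have hSbd : BddBelow S := ⟨1, fun C hC => hlow f C hbasis hC⟩
    have hleast : IsBasisConstant f (sInf S) := by
      refine ⟨?_, fun C hC => csInf_le hSbd hC⟩
      intro x a h N
      rcases eq_or_lt_of_le (norm_nonneg x) with h0 | h0
      · have := hmem x a h N
        rw [← h0, mul_zero] at this ⊢
        exact this
      · have h2 : ‖psum f a N‖ / ‖x‖ ≤ sInf S := by
          refine le_csInf hSne fun C hC => ?_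
          rw [div_le_iff₀ h0]
          exact hC x a h N
        rwa [div_le_iff₀ h0] at h2
    exact (hb ⟨f, hbasis, hleast⟩).trans (csInf_le hSbd hmem)

end Pool.Agent.Results.MP_c30670_an.InfimumOne
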